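import Pool.Agent.N864.GT.U3

/-!
MP_19ffc6_ag: resolution, in every dimension, of the varieties `Z` over a perfect field which have a
Galois alteration `X ⟶ Z` with a group `G` such that `Z` is birational to `X / G`, and such that the
inertia groups of the points of `X` are tame and cyclic, or of prime order (and possibly wild) with
a condition on the ideal of the fixed points. For example `Z = X / G`. The variety `Z` is
quasi-projective over an affine variety `Spec O`, and `X` is projective over `Spec O`.

The scheme `X`, with the function field `K`, is given by homogeneous coordinates `H j` in `K`: its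
charts are the spectra of the rings `O[H 0 / H j, ..., H N / H j] ⊆ K`. The local rings of `X` are
considered as subrings of `K`. The scheme `X` can be singular at the points with inertia groups of
prime order: the condition is that the blowing up of the ideal of the fixed points is regular.
-/

set_option autoImplicit false

open AlgebraicGeometry CategoryTheory

namespace Pool.Agent.Results.MP_19ffc6_ag.FixedIdealBlowups

section

variable {O K : Type} [CommRing O] [Field K] [Algebra O K]

/-- The ring `O[H 0 / H j, ..., H N / H j]` of the chart `H j ≠ 0`. -/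
def chartRing (O : Type) {K : Type} [CommRing O] [Field K] [Algebra O K] {N : ℕ}
    (H : Fin (N + 1) → K) (j : Fin (N + 1)) : Subring K :=
  (Algebra.adjoin O (Set.range fun l => H l / H j)).toSubring

/-- The local ring at the prime `𝔮` of the subring `A` of the field `K`, as a subring of `K`. -/
noncomputable def localRing (A : Subring K) (𝔮 : Ideal A) [𝔮.IsPrime] : Subring K :=
  (LocalSubring.ofPrime A 𝔮).toSubring

/-- The automorphism `σ` is in the inertia group of the point with the local ring `R`: the ring `R`
is stable under `σ`, which acts trivially on its residue field. -/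
def IsFixed (σ : K ≃ₐ[O] K) (R : Subring K) : Prop :=
  ∀ x : R, ∃ y : R, (y : K) = σ x ∧ ¬ IsUnit (y - x)

/-- The ideal of the fixed scheme of `σ` in `R`, generated by the elements `σ x - x`. -/
def fixedIdeal (σ : K ≃ₐ[O] K) (R : Subring K) : Ideal R :=
  Ideal.span {y : R | ∃ x : R, (y : K) = σ x - x}

/-- `σ` acts by a scalar `u` on the ideal of its fixed scheme modulo the square of this ideal. -/
def ActsByScalar (σ : K ≃ₐ[O] K) (R : Subring K) : Prop :=
  ∃ u : R, ∀ y ∈ fixedIdeal σ R, ∀ y' : R, (y' : K) = σ y → y' - u * y ∈ fixedIdeal σ R ^ 2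

/-- The ring `R[I / y]` of an affine chart of the blowing up of the ideal `I` of the fixed
scheme. -/
def chart (σ : K ≃ₐ[O] K) (R : Subring K) (y : R) : Subring K :=
  Subring.closure ((R : Set K) ∪ {x | ∃ b ∈ fixedIdeal σ R, x = (b : K) / y})

/-- The conditions on the generator `σ`, of prime order `p`, of the inertia group of the point with
the regular local ring `R`. Either `p` is invertible in `R` (tame inertia), and `p = 2` or `σ` acts
by a scalar on the conormal module of its fixed scheme. Or `σ = 1 + t δ` on `R` (wild inertia),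
where the ideal generated by the image of `δ` is the unit ideal, or it has a regular quotient and
`p = 2` or `σ` acts by a scalar on the conormal module of its fixed scheme. -/
def GeneratorCondition (p : ℕ) (σ : K ≃ₐ[O] K) (R : Subring K) : Prop :=
  (IsUnit (p : R) ∧ (p = 2 ∨ ActsByScalar σ R)) ∨
    ∃ (t : R) (δ : R → R), t ≠ 0 ∧ (∀ x : R, σ x = x + t * δ x) ∧
      (Ideal.span (Set.range δ) = ⊤ ∨
        (IsRegularLocalRing (R ⧸ Ideal.span (Set.range δ)) ∧ (p = 2 ∨ ActsByScalar σ R)))

/-- The conditions on the generator `σ`, of prime order `p`, of the inertia group of the point with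
the local ring `R`. Either the blowing up of the ideal of the fixed scheme of `σ` in `R` is regular,
and `p = 2` or `σ` acts by a scalar on the conormal module of its fixed scheme. Or `R` is regular
with the conditions above. -/
def PrimeCondition (p : ℕ) (σ : K ≃ₐ[O] K) (R : Subring K) : Prop :=
  ((∀ y ∈ fixedIdeal σ R, y ≠ 0 → IsRegularRing (chart σ R y)) ∧ (p = 2 ∨ ActsByScalar σ R)) ∨
    (IsRegularLocalRing R ∧ GeneratorCondition p σ R)

/-- The inertia group in `G` of the point with the local ring `R` is cyclic, generated by an element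
`τ`. Either `R` is regular and the order of `τ` is invertible in `R` and a product of primes in `T`
(in particular if `τ = 1`), or the order is a prime which is not in `T`, with the conditions
above. -/
def InertiaCondition (T : Set ℕ) (G : Subgroup (K ≃ₐ[O] K)) (R : Subring K) : Prop :=
  ∃ τ ∈ G, (∀ σ ∈ G, IsFixed σ R ↔ σ ∈ Subgroup.zpowers τ) ∧
    ((IsRegularLocalRing R ∧ IsUnit ((orderOf τ : ℕ) : R) ∧
        ∀ l : ℕ, l.Prime → l ∣ orderOf τ → l ∈ T) ∨
      ((orderOf τ).Prime ∧ orderOf τ ∉ T ∧ PrimeCondition (orderOf τ) τ R))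

/-- The coordinates `H j ≠ 0` define a projective scheme `X` over `O` with the function field `K`,
on which the finite group `G` acts by linear transformations, and the inertia groups of all points
of `X` satisfy the conditions above. -/
structure IsGoodAction (T : Set ℕ) {N : ℕ} (H : Fin (N + 1) → K) (G : Subgroup (K ≃ₐ[O] K)) :
    Prop where
  ne_zero : ∀ j, H j ≠ 0
  functionField : Subfield.closure (chartRing O H 0 : Set K) = ⊤
  finite : Finite G
  linear : ∀ σ ∈ G, ∀ j, σ (H j) ∈ Submodule.span O (Set.range H)
  inertia : ∀ j (𝔮 : Ideal (chartRing O H j)) [𝔮.IsPrime],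
    InertiaCondition T G (localRing (chartRing O H j) 𝔮)

/-- Let `X` be the projective scheme over `O` with the homogeneous coordinates `H j` in its function
field `K`, with an action of `G`. The graded algebra `S = ⨁ 𝒜 t` is generated over `O` by its part
`𝒜 1` of degree one, which is a finitely generated module, `ξ` is the generic point of the
projective scheme `Z = Proj S` over `O`, the field `K ^ G` of invariants is the function field of
`Z` (`ξ` is injective on the homogeneous parts of `S`, its values are invariants, and all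
invariants are quotients of the values at `ξ` of homogeneous elements of `S` of the same degree),
and the rational map from `X` to `Z` is a morphism: for each local ring `R` of `X` there is an
element `b` of degree one such that the quotients `ξ s / ξ b`, for `s` of degree one, are
in `R`. -/
structure IsQuotientMap {S : Type} [CommRing S] [Algebra O S] {N : ℕ} (H : Fin (N + 1) → K)
    (G : Subgroup (K ≃ₐ[O] K)) (𝒜 : ℕ → Submodule O S) (ξ : S →ₐ[O] K) : Prop where
  generated : Algebra.adjoin O (𝒜 1 : Set S) = ⊤
  finite : (𝒜 1).FG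
  ne_bot : 𝒜 1 ≠ ⊥
  injective : ∀ n, ∀ s ∈ 𝒜 n, ξ s = 0 → s = 0
  invariant : ∀ s, ∀ σ ∈ G, σ (ξ s) = ξ s
  fractions : ∀ z, (∀ σ ∈ G, σ z = z) → ∃ n, ∃ s ∈ 𝒜 n, ∃ t ∈ 𝒜 n, ξ t ≠ 0 ∧ z = ξ s / ξ t
  morphism : ∀ j (𝔮 : Ideal (chartRing O H j)) [𝔮.IsPrime], ∃ b ∈ 𝒜 1, ξ b ≠ 0 ∧ ∀ s ∈ 𝒜 1,
    ξ s / ξ b ∈ localRing (chartRing O H j) 𝔮

end

/-- The structure morphism of `Z = Proj S` over `k`: the composition of `Proj S ⟶ Spec O` and
`Spec O ⟶ Spec k`. -/
noncomputable def projStr (k : Type) {O S : Type} [Field k] [CommRing O] [Algebra k O] [CommRing S]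
    [Algebra O S] (𝒜 : ℕ → Submodule O S) [GradedAlgebra 𝒜] :
    Proj 𝒜 ⟶ Spec (CommRingCat.of k) :=
  (Proj.toSpecZero 𝒜 ≫ Spec.map (CommRingCat.ofHom (algebraMap O (𝒜 0)))) ≫
    Spec.map (CommRingCat.ofHom (algebraMap k O))

/-- The `k`-scheme `X`, with structure morphism `f`, is a variety (an integral scheme, separated
and of finite type over `k`) and has a resolution of singularities: there are an integral scheme
`Y`, smooth over `k`, and a proper morphism `Y ⟶ X` which is an isomorphism over a dense open
subset of `X`. -/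
def IsResolvableVariety {k : Type} [Field k] {X : Scheme.{0}}
    (f : X ⟶ Spec (CommRingCat.of k)) : Prop :=
  (AlgebraicGeometry.IsIntegral X ∧ AlgebraicGeometry.IsSeparated f ∧
    AlgebraicGeometry.LocallyOfFiniteType f ∧ AlgebraicGeometry.QuasiCompact f) ∧
  ∃ (Y : Scheme.{0}) (π : Y ⟶ X), AlgebraicGeometry.IsIntegral Y ∧
    AlgebraicGeometry.IsProper π ∧ AlgebraicGeometry.Smooth (π ≫ f) ∧
    ∃ U : X.Opens, Dense (U : Set X) ∧ IsIso (π ∣_ U)

/-- Let `k` be a perfect field, and let `Spec O` be an affine variety over `k`. Let `X` be an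
integral projective scheme over `O` with the function field `K` and let `G` be a finite group acting
on `X` over `O`, such that the inertia groups of the points of `X` satisfy the conditions above, for
some set `T` of primes. Let `Z = Proj S` be projective over `O`, with the function field `K ^ G`,
such that the rational map from `X` to `Z` is a morphism. Then each nonempty open subscheme `U` of
`Z` has a resolution of singularities.

For example `O = k` and `Z = X / G`; or `Z = Spec O` (where `S = O[x]` is the polynomial ring) is an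
affine variety, `X` is projective over `Z` and `O` has the field of fractions `K ^ G`. -/
theorem result (k : Type) [Field k] [PerfectField k]
    (O : Type) [CommRing O] [IsDomain O] [Algebra k O] [Algebra.FiniteType k O]
    (K : Type) [Field K] [Algebra O K] (hO : Function.Injective (algebraMap O K))
    (N : ℕ) (H : Fin (N + 1) → K) (G : Subgroup (K ≃ₐ[O] K)) (T : Set ℕ) (hG : IsGoodAction T H G)
    (S : Type) [CommRing S] [IsDomain S] [Algebra O S] (𝒜 : ℕ → Submodule O S) [GradedAlgebra 𝒜]
    (ξ : S →ₐ[O] K) (hξ : IsQuotientMap H G 𝒜 ξ)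
    (U : (Proj 𝒜).Opens) (hU : (U : Set (Proj 𝒜)).Nonempty) :
    IsResolvableVariety (U.ι ≫ projStr k 𝒜) := by
  -- the inertia groups
  have key : ∀ (R : Subring K), InertiaCondition T G R →
      Pool.Agent.N864.GT.InertiaCondition7 T G.subtype R := by
    intro R hI
    have hord : ∀ g : G, orderOf g = orderOf (g : K ≃ₐ[O] K) := fun g =>
      (Subgroup.orderOf_coe g).symm
    have hzp : ∀ g τ : G, (g : K ≃ₐ[O] K) ∈ Subgroup.zpowers (τ : K ≃ₐ[O] K) ↔
        g ∈ Subgroup.zpowers τ := by
      intro g τ
      constructor
      · rintro ⟨n, hn⟩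
        exact ⟨n, Subtype.ext (by rw [← hn]; rfl)⟩
      · rintro ⟨n, rfl⟩
        exact ⟨n, rfl⟩
    obtain ⟨τ, hτ, hIτ, h⟩ := hI
    refine ⟨⟨τ, hτ⟩, fun g => (hIτ g g.2).trans (hzp g ⟨τ, hτ⟩), ?_⟩
    rw [hord ⟨τ, hτ⟩]
    exact h
  have hfin := hG.finite
  have hin := hG.inertia
  -- the field of the invariants
  let F : Subfield K :=
    { carrier := {x | ∀ σ ∈ G, σ x = x}
      mul_mem' := fun ha hb σ hσ => by rw [map_mul, ha σ hσ, hb σ hσ]
      one_mem' := fun σ _ => map_one σ
      add_mem' := fun ha hb σ hσ => by rw [map_add, ha σ hσ, hb σ hσ]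
      zero_mem' := fun σ _ => map_zero σ
      neg_mem' := fun ha σ hσ => by rw [map_neg, ha σ hσ]
      inv_mem' := fun a ha σ hσ => by rw [map_inv₀, ha σ hσ] }
  let i1 : Algebra O F := (RingHom.codRestrict (algebraMap O K) F fun o σ _ => σ.commutes o).toAlgebra
  have i2 : IsScalarTower O F K := IsScalarTower.of_algebraMap_eq fun _ => rfl
  let ξ' : S →ₐ[O] F :=
    { toRingHom := RingHom.codRestrict (ξ : S →+* K) F fun s σ hσ => hξ.invariant s σ hσ
      commutes' := fun o => Subtype.ext (ξ.commutes o) }
  have hξ' : ∀ s, ((ξ' s : F) : K) = ξ s := fun s => rfl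
  have hξ0 : ∀ s, ξ' s ≠ 0 ↔ ξ s ≠ 0 := by
    intro s
    rw [← hξ', Ne, Ne, ZeroMemClass.coe_eq_zero]
  exact Pool.Agent.N864.GTU.uni_resolution (F := F) hO T H hG.ne_zero hG.functionField G hG.linear
    (fun j 𝔮 h𝔮 => key _ (@hin j 𝔮 h𝔮))
    (fun x => ⟨fun h => ⟨⟨x, h⟩, rfl⟩, by rintro ⟨f, rfl⟩; exact f.2⟩) 𝒜 hξ.generated hξ.finite
    hξ.ne_bot ξ' (fun n s hs h => hξ.injective n s hs (by rw [← hξ', h]; rfl))
    (fun z => by
      obtain ⟨n, s, hs, t, ht, ht0, h⟩ := hξ.fractions z z.2
      exact ⟨n, s, hs, t, ht, (hξ0 t).2 ht0, Subtype.ext h⟩)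
    (fun j 𝔮 h𝔮 => by
      obtain ⟨b, hb, hb0, h⟩ := @IsQuotientMap.morphism O K _ _ _ S _ _ N H G 𝒜 ξ hξ j 𝔮 h𝔮
      exact ⟨b, hb, (hξ0 b).2 hb0, fun s hs => h s hs⟩) U hU

end Pool.Agent.Results.MP_19ffc6_ag.FixedIdealBlowups
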