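import Pool.Agent.N98.PJ.RelP
import Pool.Agent.N98.Abs
import Pool.Agent.W558.Var
import Pool.Agent.N762.RC.Pow2

/-!
MP_19ffc6_ag: resolution of singularities of the inverse images of the affine varieties of degree
at most `D` under the maps `(y 1, ..., y N) ↦ (y 1 ^ m 1, ..., y N ^ m N)` with arbitrary exponents
`m i ≥ 1` (which may be divisible by the characteristic), over a perfect field `k` of
characteristic `p > D ^ 2 ^ (N - 1)`; in all dimensions.

So `Y` is a variety in the affine space of dimension `N` over `k`, with the generic point `y` and
the function field `K`, and the image of `Y` under the map has degree at most `D`. For example, `Y`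
is an irreducible component of a hypersurface `F (y 1 ^ m 1, ..., y N ^ m N) = 0`, where `F` is a
polynomial of degree at most `D`. The degree of `Y` is not bounded, and the (purely inseparable, if
`m i` is a power of `p`) map from `Y` to its image can be arbitrarily complicated: a hypersurface
`z ^ p = f (x 1, ..., x n)` with `deg f ≤ D` is a special case. The singularities of `Y` are
arbitrary.

The proof:

(1) Reduction to powers of `p`. Let `m i = p ^ ε i * n i`, where `p ∤ n i`, and `z i = y i ^ n i`. If
the field `k (z)` has a smooth proper model on which the `z i` have their zeros and poles in a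
normal crossings divisor, then also `K = k (y)` has such a model, because a cover by roots with
exponents prime to `p` has only toroidal singularities.

(2) Twisted polynomials. We order the coordinates so that `ε 1 ≤ ε 2 ≤ ... ≤ ε N`. We construct
models of the fields `k (z i, ..., z N)`, by descending induction on `i`, on which given
polynomials in the powers `z j ^ p ^ ε j` have, up to powers prime to `p`, their zeros and poles in
a normal crossings divisor. As a polynomial in the powers `z j ^ p ^ ε j`, `j ≥ i`, is the power with
exponent `p ^ ε i` of a polynomial in the `z j ^ p ^ (ε j - ε i)`, one can suppose that `ε i = 0`.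
So we have a family of polynomials of degree `< p` in `z i` whose coefficients are polynomials in
the powers of the other coordinates; their discriminants and resultants, and those of their
derivatives with respect to `z i`, are again such polynomials, of degree at most the square. Over a
model of `k (z (i + 1), ..., z N)` on which these have their zeros and poles in a normal crossings
divisor, finitely many blowups with centres in the boundary and in the divisors of derivatives of
the polynomials are sufficient; if `z i` is algebraic over the field `k (z (i + 1), ..., z N)`, one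
restricts the model to the divisor of its equation (method of helper98 for varieties of bounded
degree, `Pool.Agent.N98`).

(3) The equations. Let `z i` be algebraic over `k (z (i + 1), ..., z N)`. The irreducible equation
of the powers `z i ^ p ^ ε i` and `z j ^ p ^ ε j`, where `j > i` runs through a transcendence basis,
has degree at most `D`, by comparison of Hilbert functions.

(4) A principalization gives a resolution.

helper762, helper98; built on the library of helper98 and on the library of the starting files
(helpers 558, 214, 973, 418 and others).
-/

set_option autoImplicit false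

open AlgebraicGeometry CategoryTheory Pool.Agent.W558 Pool.Agent.N98

namespace Pool.Agent.Results.MP_19ffc6_ag.PowerMapPreimages

/-- The values at the point `w` of the polynomials over `k` of total degree at most `t`. -/
noncomputable def values (k : Type) {K : Type} [Field k] [Field K] [Algebra k K] {N : ℕ}
    (w : Fin N → K) (t : ℕ) : Submodule k K :=
  (MvPolynomial.restrictTotalDegree (Fin N) k t).map
    (MvPolynomial.aeval w : MvPolynomial (Fin N) k →ₐ[k] K).toLinearMap

/-- The variety in the affine space over `k` with the generic point `w` (the zeros of the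
polynomials over `k` which vanish at `w`), whose function field is `k (w)`, has dimension `d` and
degree at most `D`: its Hilbert function, the dimension of the space of the polynomial functions of
degree at most `t` on the variety, is at most `D * t ^ d / d! + O (t ^ (d - 1))`. -/
def DegreeAtMost (k : Type) {K : Type} [Field k] [Field K] [Algebra k K] {N : ℕ}
    (w : Fin N → K) (d D : ℕ) : Prop :=
  Algebra.trdeg k (IntermediateField.adjoin k (Set.range w)) = d ∧
    ∃ C : ℕ, ∀ t : ℕ, d.factorial * Module.finrank k (values k w t) ≤ D * (t + C) ^ d

/-- The element `z` is a product of (positive or negative) powers of the `y i` and of values at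
`(y 1 ^ m 1, ..., y N ^ m N)` of polynomials over `k` of degree at most `D`. -/
def IsProduct (k : Type) {K : Type} [Field k] [Field K] [Algebra k K] {N : ℕ}
    (y : Fin N → K) (m : Fin N → ℕ) (D : ℕ) (z : K) : Prop :=
  ∃ (a : Fin N → ℤ) (q : ℕ) (G : Fin q → MvPolynomial (Fin N) k) (e : Fin q → ℤ),
    (∀ b, (G b).totalDegree ≤ D) ∧
      z = (∏ i, y i ^ a i) * ∏ b, (MvPolynomial.aeval (fun i => y i ^ m i) (G b)) ^ e b

/-- The homomorphism `ξ` is a homogeneous generic point of the projective variety `Proj S` over
`k`, where `S = ⨁ 𝒜 t`, and `K` is the function field: `ξ` is injective on the homogeneous parts of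
`S`, and the elements of `K` are the quotients of the values at `ξ` of homogeneous elements of `S`
of the same degree. -/
structure IsGenericPoint {k S K : Type} [Field k] [CommRing S] [Algebra k S]
    (𝒜 : ℕ → Submodule k S) [Field K] [Algebra k K] (ξ : S →ₐ[k] K) : Prop where
  injective : ∀ n, ∀ s ∈ 𝒜 n, ξ s = 0 → s = 0
  fractions : ∀ z : K, ∃ n, ∃ s ∈ 𝒜 n, ∃ t ∈ 𝒜 n, ξ t ≠ 0 ∧ z = ξ s / ξ t

/-- Let `k` be a perfect field of characteristic `p`, let `y = (y 1, ..., y N)` be the generic point
of a variety `Y` in the affine space over `k`, with function field `K`, and let `m i ≥ 1` be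
exponents such that the variety with the generic point `(y 1 ^ m 1, ..., y N ^ m N)`, the closure
of the image of `Y`, has dimension `d` and degree at most `D`, where `D ^ 2 ^ (N - 1) < p`.

(1) Let `A` be a finitely generated `k`-algebra with fraction field `K` which is integral over the
subalgebra generated by finitely many elements which are products of powers of the `y i` and of
polynomials of degree at most `D` in the `y i ^ m i`; for example `A = k[y 1, ..., y N]`, the
coordinate ring of `Y`, or its normalization. Then the variety `Spec A` has a resolution of
singularities.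

(2) Let `X = Proj S` be a projective variety over `k` with function field `K`, where `S` is a graded
domain over `k` generated by finitely many elements `b 1, ..., b l` of degree one, and suppose that
the homogeneous coordinates `ξ (b 1), ..., ξ (b l)` of the generic point of `X` are such products;
for example the closure of `Y` in the projective space. Then each nonempty open subscheme `U` of
`X` has a resolution of singularities. -/
theorem result (p : ℕ) [Fact p.Prime] (k K : Type) [Field k] [PerfectField k] [CharP k p]
    [Field K] [Algebra k K] (N d D : ℕ) (y : Fin N → K)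
    (hy : IntermediateField.adjoin k (Set.range y) = ⊤) (m : Fin N → ℕ) (hm : ∀ i, m i ≠ 0)
    (hw : DegreeAtMost k (fun i => y i ^ m i) d D) (hp : D ^ 2 ^ (N - 1) < p) :
    (∀ (A : Type) [CommRing A] [IsDomain A] [Algebra k A] [Algebra.FiniteType k A] [Algebra A K]
      [IsScalarTower k A K] [IsFractionRing A K] (l : ℕ) (s : Fin l → A),
      (∀ j, IsProduct k y m D (algebraMap A K (s j))) →
      (∀ a : A, IsIntegral (Algebra.adjoin k (Set.range s)) a) →
      IsResolvableVariety (X := Spec (CommRingCat.of A))
        (Spec.map (CommRingCat.ofHom (algebraMap k A)))) ∧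
    (∀ (S : Type) [CommRing S] [IsDomain S] [Algebra k S] (𝒜 : ℕ → Submodule k S)
      [GradedAlgebra 𝒜], Algebra.adjoin k (𝒜 1 : Set S) = ⊤ → 𝒜 1 ≠ ⊥ →
      ∀ (l : ℕ) (b : Fin l → S), Submodule.span k (Set.range b) = 𝒜 1 →
      ∀ (ξ : S →ₐ[k] K), IsGenericPoint 𝒜 ξ → (∀ i, IsProduct k y m D (ξ (b i))) →
      ∀ (U : (Proj 𝒜).Opens), (U : Set (Proj 𝒜)).Nonempty →
      IsResolvableVariety (k := k) (X := U.toScheme)
        (U.ι ≫ Proj.toSpecZero 𝒜 ≫ Spec.map (CommRingCat.ofHom (algebraMap k (𝒜 0))))) := by
  classical
  obtain ⟨htr0, C, hC⟩ := hw
  have hyw : ∀ i, y i ^ m i ∈ IntermediateField.adjoin k (Set.range fun i => y i ^ m i) :=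
    fun i => IntermediateField.subset_adjoin _ _ ⟨i, rfl⟩
  obtain ⟨-, halg⟩ := Pool.Agent.N762.RC.alg_of_pow y hy _ m hm hyw
  have htr : Algebra.trdeg k K = d := by
    have h1 : Algebra.trdeg k (IntermediateField.adjoin k (Set.range fun i => y i ^ m i)) +
        Algebra.trdeg (IntermediateField.adjoin k (Set.range fun i => y i ^ m i)) K =
        Algebra.trdeg k K := trdeg_add_eq k _
    have h2 : Algebra.trdeg (IntermediateField.adjoin k (Set.range fun i => y i ^ m i)) K = 0 :=
      trdeg_eq_zero
    rw [← h1, h2, add_zero, htr0]
  -- the key statement for finitely many products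
  have key : ∀ (l : ℕ) (z : Fin l → K), (∀ j, IsProduct k y m D (z j)) →
      ∃ (T I : Type) (_ : Finite T) (_ : Fintype I) (M : LM (⊥ : Subalgebra k K) ⊤ T I),
        Frc M ∧ ∀ j, z j ≠ 0 → IsBr M (z j) := by
    intro l z hz
    choose a q G e hG hze using hz
    let F : (Σ j, Fin (q j)) → K := fun i =>
      MvPolynomial.aeval (fun i => y i ^ m i) (G i.1 i.2)
    obtain ⟨T, I, hT, hI, M, hFr, hM1, hM2⟩ := Pool.Agent.N762.RC.all_models p y m hm hy d D C htr
      hC (fun _ => factorial_ne_zero_of_lt p (Fact.out : p.Prime) hp)
      {i : Σ j, Fin (q j) // F i ≠ 0} (fun i => G i.1.1 i.1.2) (fun i => i.2)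
      (fun i => hG i.1.1 i.1.2)
    refine ⟨T, I, hT, hI, M, hFr, fun j hj => ?_⟩
    rw [hze j] at hj ⊢
    rw [mul_ne_zero_iff, Finset.prod_ne_zero_iff, Finset.prod_ne_zero_iff] at hj
    refine IsBr.mul (IsBr.prod _ _ fun i _ => ?_) (IsBr.prod _ _ fun i _ => ?_)
    · by_cases h0 : y i = 0
      · have h1 : a j i = 0 := by
          by_contra h2
          apply hj.1 i (Finset.mem_univ i)
          rw [h0, zero_zpow _ h2]
        rw [h1, zpow_zero]
        exact IsB.one.br
      · exact (hM2 i h0).zpow _
    · by_cases h0 : F ⟨j, i⟩ = 0
      · have h1 : e j i = 0 := by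
          by_contra h2
          apply hj.2 i (Finset.mem_univ i)
          change F ⟨j, i⟩ ^ e j i = 0
          rw [h0, zero_zpow _ h2]
        rw [h1, zpow_zero]
        exact IsB.one.br
      · exact (hM1 ⟨⟨j, i⟩, h0⟩).zpow _
  refine ⟨?_, ?_⟩
  · intro A _ _ _ _ _ _ _ l s hs hA
    have hinj : Function.Injective (algebraMap A K) := IsFractionRing.injective A K
    obtain ⟨T, I, hT, hI, M, hFr, hM⟩ := key l (fun j => algebraMap A K (s j)) hs
    refine isResolvableVariety_spec (hasResolution_of_isBr M hFr A s (fun j hj => ?_) hA)
    exact hM j fun h0 => hj (hinj (h0.trans (map_zero _).symm))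
  · intro S _ _ _ 𝒜 _ hS hS1 l b hb ξ hξ hform U hU
    obtain ⟨T, I, hT, hI, M, hFr, hM⟩ := key l (fun j => ξ (b j)) hform
    exact PJ.isResolvable_open_of_isBr 𝒜 hS ξ hξ.injective hξ.fractions b hb M hFr hM hS1 U hU

end Pool.Agent.Results.MP_19ffc6_ag.PowerMapPreimages
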