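import Pool.Agent.N98.PJ.Open

/-!
MP_19ffc6_ag: resolution of singularities of the quasi-projective varieties of dimension `d` and
degree at most `δ` over a perfect field of characteristic `p > δ ^ 2 ^ (d - 2)`.

The proof does not use resolution of singularities in characteristic zero. Let `S` be the
homogeneous coordinate ring of a projective variety `X` of dimension `d` and degree `≤ δ`.

(1) Polynomials. Let `E` be a field such that finite families of elements of `E` are locally
monomial on suitable smooth models of `E` (here `E = k(x, y)`, by blowing up points). By induction
on `n`, finite families of polynomials of degree `≤ D` in `n` variables over `E` become locally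
monomial (up to powers prime to `p`) on a smooth model of the field of rational functions if `p >
D ^ 2 ^ (n - 1)`: the discriminants and resultants of the family and of its derivatives with respect
to one variable have degree `≤ D ^ 2` in the others; over a model on which they are locally
monomial, finitely many blowups with centres in the boundary and in the divisors of the derivatives
make the family locally monomial; these are controlled by logarithmic derivations.

(2) Restriction of the model to a hypersurface of degree `≤ D`.

(3) Generic projections: `X` is birational to a hypersurface of degree `≤ δ` by a general linear
projection; the derivatives of the equation of the generic projection with respect to its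
coefficients express the coordinates as quotients of polynomials of degree `≤ δ` in the coordinates
of the hypersurface, so the homogeneous coordinates are locally monomial on the model of (1), (2).
The degree of the equation is bounded with the Hilbert function.

(4) A principalization of these monomials gives a smooth proper model `Y` such that on each chart
one of the homogeneous coordinates divides the others, hence a morphism `Y ⟶ X`, by gluing at
the generic point; it is proper and birational. Restriction to open subsets of `X`.

helper98; built on the library of the starting files (helpers 558, 973, 418, 968 and others).
-/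

set_option autoImplicit false

open AlgebraicGeometry CategoryTheory Pool.Agent.W558 Pool.Agent.N98

namespace Pool.Agent.Results.MP_19ffc6_ag.QuasiProjectiveBoundedDegree

/-- The graded algebra `S = ⨁ 𝒜 t` over the field `k` (a domain) is generated over `k` by its part
`𝒜 1` of degree one, which has finite dimension, and the projective variety `Proj S` (in the
projective space of dimension `dim 𝒜 1 - 1`) has dimension `d` and degree at most `δ`: the
transcendence degree of `S` is `d + 1` and the Hilbert function `dim 𝒜 t` is at most
`δ * t ^ d / d! + O (t ^ (d - 1))`. -/
structure IsCoordinateRing (k : Type) {S : Type} [Field k] [CommRing S] [Algebra k S]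
    (𝒜 : ℕ → Submodule k S) (d δ : ℕ) : Prop where
  generated : Algebra.adjoin k (𝒜 1 : Set S) = ⊤
  finite : (𝒜 1).FG
  dimension : Algebra.trdeg k S = d + 1
  degree : ∃ C : ℕ, ∀ t : ℕ, d.factorial * Module.finrank k (𝒜 t) ≤ δ * (t + C) ^ d

/-- Let `k` be a perfect field of characteristic `p` and let `X = Proj S` be a projective variety
over `k` of dimension `d ≥ 2` and degree at most `δ`, where `δ ^ 2 ^ (d - 2) < p`; here `S` is a
graded domain over `k`, generated by finitely many elements of degree one. Then each nonempty open
subscheme `U` of `X` has a resolution of singularities. -/
theorem result (p : ℕ) [Fact p.Prime] (k S : Type) [Field k] [PerfectField k] [CharP k p]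
    [CommRing S] [IsDomain S] [Algebra k S] (𝒜 : ℕ → Submodule k S) [GradedAlgebra 𝒜] (d δ : ℕ)
    (hS : IsCoordinateRing k 𝒜 d δ) (hd : 2 ≤ d) (hp : δ ^ 2 ^ (d - 2) < p)
    (U : (Proj 𝒜).Opens) (hU : (U : Set (Proj 𝒜)).Nonempty) :
    IsResolvableVariety (k := k) (X := U.toScheme)
      (U.ι ≫ Proj.toSpecZero 𝒜 ≫ Spec.map (CommRingCat.ofHom (algebraMap k (𝒜 0)))) := by
  obtain ⟨C, hC⟩ := hS.degree
  exact PJ.isResolvable_open 𝒜 hS.generated hS.finite d hd hS.dimension δ C hC
    (factorial_ne_zero_of_lt p (Fact.out : p.Prime) hp) U hU

end Pool.Agent.Results.MP_19ffc6_ag.QuasiProjectiveBoundedDegree
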