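import Pool.Agent.N102.TF.Mod
import Pool.Agent.N762.FP.Itg

/-!
MP_19ffc6_ag: resolution of singularities, in all dimensions and in all characteristics `p > 0`, of
the projective varieties over a perfect field `k`, and of their open subsets, whose function fields
are obtained from function fields of surfaces (or from any function fields of varieties with
sufficiently many normal crossings models) by finitely many steps of the following kinds: systems
of linear equations between powers of arbitrary exponents `p ^ e` together with schön equations,
whose coefficients are products of the elements of the previous steps; coverings of degree a power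
of `p` (Artin-Schreier coverings, or given by `p`-th roots) by nondegenerate functions of such
systems; radicals of exponents prime to `p`; products.

The theorem is about the pairs `(K, P)` of a field `K` and a set `P` of elements of `K` which are
obtained from the pairs `(E, E)`, where `E` is the function field of a surface, by finitely many of
the operations of `IsTower`, in any order. A projective variety `X` with function field `K` has
a resolution, and so have its open subsets, if it has a finite morphism to a projective space whose
homogeneous coordinates are in `P` (for example, if the homogeneous coordinates of `X` are in `P`).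

The operation `system` is a theorem about an arbitrary pair `(L, P)` with models: if each finite
family of elements of `P` has its zeros and poles in a normal crossings divisor on some smooth
projective variety with function field `L`, then the same is true for the pair `(K, Q)`. So it
can be used over threefolds (`P = L`, by Cossart, Piltant, Jannsen and Saito), over the pairs of
the theorem `AdmissibleTowers` (MP_b525bf_ag) and for all `(L, P)` for which such models will be
found.

Examples:

* Let `T` be a variety such that the pair `(E, E)`, `E` the function field of `T`, has models (for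
  example a variety of dimension at most three), and consider the subscheme of `T × 𝔸 ^ N` given by
  the equations `∑ j, c i j * (a j * x j ^ d j) ^ q j = b i`, where the `c i j` and `b i` are in `k`,
  the `q j` are arbitrary powers of `p`, `p ∤ d j`, and the `a j` are rational functions on `T`. Each
  component of it which dominates `T`, and on which no `x j` is zero, is obtained by one step
  `system` (the `z j` are the `a j * x j ^ d j`, with the linear equations between the
  `z j ^ q j` and `1`; the schön equations are `z j = a j * x j ^ d j`). Its set `P` contains all
  functions of `T`, the `x j`, and all sums `∑ j, c j * z j ^ (q j / q) + c` (over the `j` with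
  `q ∣ q j`), with `c j` and `c` in `k`, for powers `q` of `p`. For instance
  `y ^ 4 + a ^ 2 * x ^ 6 + b * t ^ 5 = 1` in characteristic `2`, where `a` and `b` are functions of
  `T`.

* These varieties can be used again as the base of the next step, where now the `a j` are products
  of elements of the new set `P`; and between two steps one can take coverings. Examples of
  coverings of the first kind: `x^(1), ..., x^(r)` are disjoint sets of variables, `h j` is a form of
  degree prime to `p` over `k` in the variables `x^(j)` whose face forms define smooth hypersurfaces
  in the torus, `p ∤ m j`, `a j` is in `P`, and `w j ^ p - w j = a j / h j (x^(j)) ^ m j` (the schön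
  equations are `y j = h j (x^(j))`, the Laurent polynomials `F j` are `a j * y j ^ (- m j)`).
  Of the second kind: `w ^ p = ∑ j, a j / h j (x^(j)) ^ m j`.

The proof:

(1) The system is saturated: the `p ^ f`-th roots in `K` of the linear combinations of the powers
`z t ^ (p ^ e t)` with `e t ≥ f`, which are needed, and the given linear forms which are added to
`P`, become new variables; the new system is schön in the directions of its variables (the theorems of the hand-in
FrobeniusLevels, MP_b525bf_ag, on leading terms of linear relations with levels; the equations and
the Laurent polynomials `F` remain nondegenerate): `exists_schon_over`.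

(2) A relative toric construction over a model of `(L, P)` adapted to the coefficients gives a
model of `K` (`gm_relative`, `gma_relative` of the library of helper214).

(3) Descent to arbitrary finite families of products, radicals and products of models:
helper762's `Mod`. A principalization gives a resolution of `X`.

helper102 (statement, proof, assembly), helper762 (pairs with models, radicals, products, projective
varieties), helpers 40, 56, 98, 214, 456, 531, 608, 954 (parts of the theory of systems with
Frobenius levels; the library).
-/

set_option autoImplicit false

open AlgebraicGeometry CategoryTheory Pool.Agent.W558 Pool.Agent.N98 Pool.Agent.TH214.SD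
  Pool.Agent.N102.FL

namespace Pool.Agent.Results.MP_19ffc6_ag.SystemTowers

/-- The smallest class of pairs `(K, P)`, where `K` is an extension of the field `k` and `P` is a
set of elements of `K`, with the following properties. -/
inductive IsTower (p : ℕ) (k : Type) [Field k] :
    (K : Type) → [Field K] → [Algebra k K] → Set K → Prop
  /-- If `E` is the function field of a smooth projective surface, then `(E, E)` is in the class.
  -/
  | surface (E : Type) [Field E] [Algebra k E] (h2 : Algebra.trdeg k E = 2)
      (hE : HasModel k E) : IsTower p k E Set.univ
  /-- If each finite family of nonzero elements of `P` has its zeros and poles in a simple normal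
  crossings divisor on some smooth projective variety with function field `E`, then `(E, P)` is in
  the class. -/
  | models (E : Type) [Field E] [Algebra k E] (P : Set E)
      (hE : ∀ (m : ℕ) (g : Fin m → E), (∀ b, g b ∈ P) → (∀ b, g b ≠ 0) →
        ∃ (N L : ℕ) (H : Fin (N + 1) → E) (x : Fin (N + 1) → Fin L → E)
          (Γ : Fin m → Fin L → ℤ), IsLogModel (k := k) g H x Γ) :
      IsTower p k E P
  /-- **Products.** If `(K₁, P₁)` and `(K₂, P₂)` are in the class, and `K` is the field of fractions
  of the image of `K₁ ⊗ K₂`, where the homomorphism from `K₁ ⊗ K₂` to `K` is injective (if `k` is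
  algebraically closed, `K` is the function field of the product of varieties with the function
  fields `K₁` and `K₂`), then `(K, P₁ ∪ P₂)` is in the class. -/
  | product (K₁ K₂ K : Type) [Field K₁] [Field K₂] [Field K] [Algebra k K₁] [Algebra k K₂]
      [Algebra k K] (P₁ : Set K₁) (P₂ : Set K₂) (h₁ : IsTower p k K₁ P₁)
      (h₂ : IsTower p k K₂ P₂) (ι₁ : K₁ →ₐ[k] K) (ι₂ : K₂ →ₐ[k] K)
      (hι : Function.Injective (Algebra.TensorProduct.productMap ι₁ ι₂))
      (hK : IntermediateField.adjoin k (Set.range ι₁ ∪ Set.range ι₂) = ⊤) :
      IsTower p k K (ι₁ '' P₁ ∪ ι₂ '' P₂)
  /-- **Systems with Frobenius levels, and their coverings.** Let `(L, P)` be in the class, and let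
  `M = L (z, x)`, where the elements `z 1, ..., z s` and `x 1, ..., x n` satisfy a schön system over
  linear relations between `1` and the powers `z t ^ (p ^ e t)`, with coefficients
  `v 1, ..., v h` in `P` (`IsLeveledSystemOver`). Let `F 1, ..., F a` be Laurent polynomials over `k`
  in the variables of `((v, z), x)` which are strongly nondegenerate on the system, for example
  `a = 0`, and let `K = M (w)`, where all `w j ^ p - w j` are integral linear combinations of the
  `F t ((v, z), x)`, or all `w j ^ p` are linear combinations over `k` of the `F t ((v, z), x)` (for
  example `K = M`). Then the `x j`, and the linear combinations over `k` of `1` and of the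
  powers `z t ^ (p ^ (e t - f))`, `e t ≥ f`, for all `f ≥ 0`, can be added to `P`. -/
  | system (L M K : Type) [Field L] [Field M] [Field K] [Algebra k L] [Algebra k M] [Algebra L M]
      [IsScalarTower k L M] [Algebra k K] [Algebra L K] [Algebra M K] [IsScalarTower k M K]
      [IsScalarTower L M K] (P : Set L) (h : IsTower p k L P) (m s n q c a r : ℕ)
      (v : Fin m → L) (hv : ∀ b, v b ∈ P) (e : Fin s → ℕ) (z : Fin s → M) (x : Fin n → M)
      (G : Fin q → (Fin (m + s) ⊕ Fin n → ℤ) →₀ k) (hB : IsLeveledSystemOver p c v e z x G)
      (F : Fin a → (Fin (m + s) ⊕ Fin n → ℤ) →₀ k) (hF : StronglyNondegenerateOn G F)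
      (w : Fin r → K)
      (hw : (∀ j, w j ^ p - w j ∈ AddSubgroup.closure (Set.range fun t => algebraMap M K
          (value (F t) (Fin.append (fun b => algebraMap L M (v b)) z) x))) ∨
        ∀ j, w j ^ p ∈ Submodule.span k (Set.range fun t => algebraMap M K
          (value (F t) (Fin.append (fun b => algebraMap L M (v b)) z) x)))
      (hK : IntermediateField.adjoin M (Set.range w) = ⊤) :
      IsTower p k K (algebraMap L K '' P ∪
        algebraMap M K '' (Set.range x ∪ {g | IsLinearForm k p e z g}))
  /-- **Radicals.** Let `(L, P)` be in the class, and let `K` be generated over `L` by elements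
  `w j ≠ 0` such that `(w j) ^ (n j)` is in `P`, for an exponent `n j` prime to `p`. Then the `w j`
  can be added to `P`. -/
  | radical (L K : Type) [Field L] [Field K] [Algebra k L] [Algebra k K] [Algebra L K]
      [IsScalarTower k L K] (P : Set L) (h : IsTower p k L P) (g : ℕ) (w : Fin g → K)
      (n : Fin g → ℕ) (hw0 : ∀ j, w j ≠ 0) (hn : ∀ j, ¬ p ∣ n j)
      (hw : ∀ j, ∃ z ∈ P, w j ^ n j = algebraMap L K z)
      (hK : IntermediateField.adjoin L (Set.range w) = ⊤) :
      IsTower p k K (algebraMap L K '' P ∪ Set.range w)
  /-- **Products and roots.** If `(K, P)` is in the class, and each nonzero element of `Q` has a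
  power which is a product of a constant and of (positive or negative) powers of elements of `P`,
  then `(K, Q)` is in the class. -/
  | saturation (K : Type) [Field K] [Algebra k K] (P Q : Set K) (h : IsTower p k K P)
      (hQ : ∀ z ∈ Q, z ≠ 0 → ∃ n : ℕ, n ≠ 0 ∧ ∃ (c : k) (l : ℕ) (a : Fin l → K) (e : Fin l → ℤ),
        (∀ i, a i ∈ P) ∧ z ^ n = algebraMap k K c * ∏ i, a i ^ e i) :
      IsTower p k K Q

/-- Finite families of elements of `P` are boundary functions on log smooth models. -/
theorem mod_of_tower (p : ℕ) [Fact p.Prime] (k : Type) [Field k] [PerfectField k]
    [CharP k p] (K : Type) [Field K] [Algebra k K] (P : Set K) (h : IsTower p k K P) :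
    Pool.Agent.N762.FP.Mod k P := by
  induction h with
  | surface E h2 hE =>
    exact Pool.Agent.N762.FP.mod_base (Pool.Agent.W418.LCI.hasLM_of_surface k E h2 hE)
  | models E P hE => exact Pool.Agent.N762.FP.mod_models hE
  | product K₁ K₂ K P₁ P₂ h₁ h₂ ι₁ ι₂ hι hK ih₁ ih₂ =>
    exact Pool.Agent.N762.FP.mod_prod ι₁ ι₂ hι hK ih₁ ih₂
  | system L M K P h m s n q c a r v hv e z x G hB F hF w hw hK ih =>
    exact Pool.Agent.N102.TF.mod_system ih hv hB hF w hw hK
  | radical L K P h g w n hw0 hn hw hK ih =>
    exact Pool.Agent.N762.FP.mod_rad p ih w hw0 n hn hw hK
  | saturation K P Q h hQ ih => exact Pool.Agent.N762.FP.mod_sat ih hQ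

/-- The homomorphism `ξ` is a homogeneous generic point of the projective variety `Proj S` over
`k`, where `S = ⨁ 𝒜 t`, and `K` is the function field: `ξ` is injective on the homogeneous parts of
`S`, and the elements of `K` are the quotients of the values at `ξ` of homogeneous elements of `S`
of the same degree. -/
structure IsGenericPoint {k S K : Type} [Field k] [CommRing S] [Algebra k S]
    (𝒜 : ℕ → Submodule k S) [Field K] [Algebra k K] (ξ : S →ₐ[k] K) : Prop where
  injective : ∀ n, ∀ s ∈ 𝒜 n, ξ s = 0 → s = 0
  fractions : ∀ z : K, ∃ n, ∃ s ∈ 𝒜 n, ∃ t ∈ 𝒜 n, ξ t ≠ 0 ∧ z = ξ s / ξ t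

/-- Let `k` be a perfect field of characteristic `p`, and let `(K, P)` be a pair of an extension of
`k` and a set of its elements which is obtained from function fields of surfaces by the operations
of `IsTower`. Let `X = Proj S` be a projective variety over `k` with function field `K`, where
`S` is a graded domain generated over `k` by its finite dimensional part `𝒜 1` of degree one. Let
`b 1, ..., b l` be elements of `𝒜 1` without common zeros on `X` (all forms of some degree `d + 1`
are in the ideal generated by them) whose values `ξ (b i)` at the homogeneous generic point of `X`
are in `P`. (In other words: `X` has a finite morphism to a projective space whose homogeneous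
coordinates are in `P`; for example, the homogeneous coordinates of `X` are in `P`.) Then each
nonempty open subscheme `U` of `X` has a resolution of singularities. -/
theorem result (p : ℕ) [Fact p.Prime] (k : Type) [Field k] [PerfectField k] [CharP k p]
    (K : Type) [Field K] [Algebra k K] (P : Set K) (hP : IsTower p k K P)
    (S : Type) [CommRing S] [IsDomain S] [Algebra k S] (𝒜 : ℕ → Submodule k S) [GradedAlgebra 𝒜]
    (hS : Algebra.adjoin k (𝒜 1 : Set S) = ⊤) (hS1 : 𝒜 1 ≠ ⊥) (hfg : (𝒜 1).FG)
    (ξ : S →ₐ[k] K) (hξ : IsGenericPoint 𝒜 ξ)
    (l : ℕ) (b : Fin l → S) (hb : ∀ i, b i ∈ 𝒜 1)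
    (hb' : ∃ d : ℕ, ∀ s ∈ 𝒜 (d + 1), s ∈ Ideal.span (Set.range b)) (hbP : ∀ i, ξ (b i) ∈ P)
    (U : (Proj 𝒜).Opens) (hU : (U : Set (Proj 𝒜)).Nonempty) :
    IsResolvableVariety (k := k) (X := U.toScheme)
      (U.ι ≫ Proj.toSpecZero 𝒜 ≫ Spec.map (CommRingCat.ofHom (algebraMap k (𝒜 0)))) := by
  classical
  obtain ⟨d, hd⟩ := hb'
  obtain ⟨T, I, hT, hI, M, hFr, hM⟩ := mod_of_tower p k K P hP
    {i : Fin l // ξ (b i) ≠ 0} (fun i => ξ (b i.1)) (fun i => hbP i.1) (fun i => i.2)
  exact Pool.Agent.N762.FP.isResolvable_of_forms 𝒜 hS hfg ξ hξ.injective hξ.fractions b hb hd M hFr
    (fun i hi => hM ⟨i, hi⟩) hS1 U hU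

end Pool.Agent.Results.MP_19ffc6_ag.SystemTowers
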